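import Pool.Agent.N402.Dim.Gen
import Pool.Agent.N975.S17.Cmp

/-!
# The dimension of the space of cusp forms of weight two for `Γ_0(17)`
-/

set_option autoImplicit false

open UpperHalfPlane MatrixGroups CongruenceSubgroup Filter Topology
open scoped ModularForm Pointwise

namespace Pool.Agent.N402.Dim

/-- the fractions whose denominator is prime to the level -/
lemma bez_cop {N : ℕ} (r : ℚ) (hr : Nat.Coprime N r.den) :
    ∃ a c : ℤ, a * (r.den : ℤ) - (N : ℤ) * (r.num * c) = 1 := by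
  have h1 : IsCoprime ((N : ℤ) * r.num) (r.den : ℤ) := by
    refine IsCoprime.mul_left ?_ ?_
    · exact_mod_cast hr.isCoprime
    · exact (Int.isCoprime_iff_gcd_eq_one.2 (by
        have := r.reduced
        rw [Int.gcd, Int.natAbs_natCast]
        exact this))
  obtain ⟨u, v, huv⟩ := h1
  exact ⟨v, -u, by linear_combination huv⟩

/-- the fractions with denominator divisible by the level -/
lemma bez_dvd {N : ℕ} [NeZero N] (r : ℚ) (hr : N ∣ r.den) :
    ∃ B C D : ℤ, r.num * D - B * ((N : ℤ) * C) = 1 ∧ C ≠ 0 ∧ r = (r.num : ℚ) / ((N : ℚ) * C) := by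
  obtain ⟨C, hC⟩ := hr
  have h1 : IsCoprime r.num (r.den : ℤ) := by
    refine Int.isCoprime_iff_gcd_eq_one.2 ?_
    have := r.reduced
    rw [Int.gcd, Int.natAbs_natCast]
    exact this
  obtain ⟨u, v, huv⟩ := h1
  have hden : (r.den : ℤ) = (N : ℤ) * C := by exact_mod_cast hC
  refine ⟨-v, C, u, ?_, ?_, ?_⟩
  · rw [hden] at huv
    linear_combination huv
  · intro h
    have h2 : C = 0 := by exact_mod_cast h
    rw [h2, mul_zero] at hC
    exact r.den_ne_zero hC
  · conv_lhs => rw [← Rat.num_div_den r]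
    congr 1
    exact_mod_cast hC

/-- the symbols of level `17` -/
theorem symb17 (s : ℚ → ℂ) (hs : SymbC 17 s) (h0 : s (1 / 3) = 0) (r : ℚ) : s r = 0 := by
  have H : N975.S17.Symb17 s := ⟨hs.per, hs.neg, fun {A B C D} h r h0 => by
    have := hs.aff (A := A) (B := B) (C := C) (D := D) (by exact_mod_cast h) r (by exact_mod_cast h0)
    exact_mod_cast this⟩
  have key : ∀ a b c d : ℤ, a * d - 17 * (b * c) = 1 → s ((b : ℚ) / d) = 0 := by
    intro a b c d h
    have h1 := N975.S17.symb_eq H h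
    rw [h0, zero_mul] at h1
    exact (mul_eq_zero.1 h1).resolve_left two_ne_zero
  by_cases hr : 17 ∣ r.den
  · obtain ⟨B, C, D, h1, hC, e⟩ := bez_dvd (N := 17) r hr
    rw [e, hs.aff_inf h1 hC]
    exact key r.num B C D (by push_cast at h1; linear_combination h1)
  · obtain ⟨a, c, h1⟩ := bez_cop (N := 17) r ((Nat.Prime.coprime_iff_not_dvd (by norm_num)).2 hr)
    have h2 := key a r.num c r.den (by push_cast at h1; exact h1)
    rw [← Rat.num_div_den r]
    exact_mod_cast h2

/-- `dim S_2(Γ_0(17)) ≤ 1` -/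
theorem dim17 (f g : CuspForm (Gamma0 17 : Subgroup (GL (Fin 2) ℝ)) 2) {z1 : ℍ} (hf : f z1 ≠ 0) :
    ∃ c : ℂ, ∀ z : ℍ, g z = c * f z :=
  dim_gen (by norm_num) (1 / 3) symb17 f g hf

end Pool.Agent.N402.Dim
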