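import Pool.Agent.N402.Dim.Man

/-!
# The dimension of the space of cusp forms of weight two for `Γ_0(21)`
-/

set_option autoImplicit false

open UpperHalfPlane MatrixGroups CongruenceSubgroup Filter Topology
open scoped ModularForm Pointwise

namespace Pool.Agent.N402.Dim

section

variable {s : ℚ → ℂ} (hs : SymbC 21 s)
include hs

lemma y_neg (j : ℤ) : s (1 / ((-j : ℤ) : ℚ)) = -s (1 / (j : ℚ)) := by
  rw [← hs.neg]
  congr 1
  push_cast
  rw [div_neg]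

lemma xi21 {a b c d a' b' c' d' : ℤ} (h : a * d - b * c = 1)
    (h' : a' * d' - b' * c' = 1) (hd : (21 : ℤ) ∣ c' * d - d' * c) :
    s ((a : ℚ) / c) - s ((b : ℚ) / d) = s ((a' : ℚ) / c') - s ((b' : ℚ) / d') :=
  hs.xi (by norm_num) h h' (by exact_mod_cast hd)

/-- class `(1 : j)` -/
lemma cl1 {a b c d : ℤ} (h : a * d - b * c = 1) (j : ℤ) (hd : (21 : ℤ) ∣ d - j * c) :
    s ((a : ℚ) / c) - s ((b : ℚ) / d) = s (1 / (j : ℚ)) := by
  have h1 := xi21 hs h (a' := 0) (b' := -1) (c' := 1) (d' := j) (by ring) (by simpa using hd)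
  rw [h1]
  have e : (((-1 : ℤ) : ℚ)) / (j : ℚ) = -(1 / (j : ℚ)) := by push_cast; rw [neg_div]
  rw [e, hs.neg]
  push_cast
  rw [zero_div, hs.zero]
  ring

/-- class `(j : 1)` -/
lemma cl2 {a b c d : ℤ} (h : a * d - b * c = 1) (j : ℤ) (hd : (21 : ℤ) ∣ c - j * d) :
    s ((a : ℚ) / c) - s ((b : ℚ) / d) = s (1 / (j : ℚ)) := by
  have h1 := xi21 hs h (a' := 1) (b' := 0) (c' := j) (d' := 1) (by ring) (by
    obtain ⟨k, hk⟩ := hd
    exact ⟨-k, by linarith⟩)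
  rw [h1]
  push_cast
  rw [zero_div, hs.zero, sub_zero]

lemma y_mod {j k : ℤ} (h : (21 : ℤ) ∣ k - j) : s (1 / (j : ℚ)) = s (1 / (k : ℚ)) := by
  have h1 := cl1 hs (a := 0) (b := -1) (c := 1) (d := k) (by ring) j (by simpa using h)
  have h2 := cl1 hs (a := 0) (b := -1) (c := 1) (d := k) (by ring) k (by simp)
  rw [← h1, ← h2]

lemma y_inv {j k : ℤ} (h : (21 : ℤ) ∣ k * j - 1) : s (1 / (j : ℚ)) = s (1 / (k : ℚ)) := by
  have h1 := cl1 hs (a := 1) (b := 0) (c := k) (d := 1) (by ring) j (by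
    obtain ⟨m, hm⟩ := h
    exact ⟨-m, by linarith⟩)
  have h2 := cl2 hs (a := 1) (b := 0) (c := k) (d := 1) (by ring) k (by simp)
  rw [← h1, ← h2]

lemma y_t1 {j k : ℤ} (h : (21 : ℤ) ∣ k * j - (j + 1)) :
    s (1 / (j : ℚ)) - s (1 / ((j + 1 : ℤ) : ℚ)) = s (1 / (k : ℚ)) := by
  have h1 := cl1 hs (a := 1) (b := 1) (c := j) (d := j + 1) (by ring) k (by
    obtain ⟨m, hm⟩ := h
    exact ⟨-m, by linarith⟩)
  rw [← h1]
  push_cast
  rfl

lemma y_t2 {j k : ℤ} (h : (21 : ℤ) ∣ k * (j + 1) - j) :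
    s (1 / (j : ℚ)) - s (1 / ((j + 1 : ℤ) : ℚ)) = s (1 / (k : ℚ)) := by
  have h1 := cl2 hs (a := 1) (b := 1) (c := j) (d := j + 1) (by ring) k (by
    obtain ⟨m, hm⟩ := h
    exact ⟨-m, by linarith⟩)
  rw [← h1]
  push_cast
  rfl

/-- the self-dual classes -/
lemma cl3 {a b c d : ℤ} (h : a * d - b * c = 1) (hd : (21 : ℤ) ∣ c * d) :
    s ((a : ℚ) / c) - s ((b : ℚ) / d) = 0 := by
  have h1 := xi21 hs h (a' := a) (b' := -b) (c' := -c) (d' := d) (by linarith) (by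
    obtain ⟨k, hk⟩ := hd
    exact ⟨-(2 * k), by linarith⟩)
  have e1 : (a : ℚ) / ((-c : ℤ) : ℚ) = -((a : ℚ) / c) := by push_cast; rw [div_neg]
  have e2 : ((-b : ℤ) : ℚ) / d = -((b : ℚ) / d) := by push_cast; rw [neg_div]
  rw [e1, e2, hs.neg, hs.neg] at h1
  linear_combination h1 / 2

theorem y_zero (h3 : s (1 / 3) = 0) : ∀ j : ℤ, 0 ≤ j → j < 21 → s (1 / (j : ℚ)) = 0 := by
  have H0 : s (1 / ((0 : ℤ) : ℚ)) = 0 := by rw [Int.cast_zero, hs.div_zero]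
  have H1 : s (1 / ((1 : ℤ) : ℚ)) = 0 := by
    have := hs.int 1
    simpa using this
  have H3 : s (1 / ((3 : ℤ) : ℚ)) = 0 := by
    have e : ((3 : ℤ) : ℚ) = 3 := by norm_num
    rw [e]; exact h3
  have H2 : s (1 / ((2 : ℤ) : ℚ)) = 0 := by
    have := y_t1 hs (j := 1) (k := 2) (by norm_num)
    rw [H1, show (1 + 1 : ℤ) = 2 by norm_num] at this
    linear_combination (-1 / 2 : ℂ) * this
  have n : ∀ j k : ℤ, (21 : ℤ) ∣ k + j → s (1 / (k : ℚ)) = -s (1 / (j : ℚ)) := by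
    intro j k h
    rw [← y_neg hs j]
    refine y_mod hs ?_
    obtain ⟨m, hm⟩ := h
    exact ⟨-m, by linarith⟩
  have H10 : s (1 / ((10 : ℤ) : ℚ)) = 0 := by
    have h1 := y_inv hs (j := 2) (k := 11) (by norm_num)
    have h2 := n 11 10 (by norm_num)
    rw [h2, ← h1, H2, neg_zero]
  have H4 : s (1 / ((4 : ℤ) : ℚ)) = 0 := by
    have h1 := y_t1 hs (j := 4) (k := 17) (by norm_num)
    have h2 := n 4 17 (by norm_num)
    have h3 := y_inv hs (j := 4) (k := 16) (by norm_num)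
    have h4 := n 5 16 (by norm_num)
    rw [show (4 + 1 : ℤ) = 5 by norm_num] at h1
    linear_combination (1 / 3 : ℂ) * h1 + (1 / 3 : ℂ) * h2 + (1 / 3 : ℂ) * h3 +
      (1 / 3 : ℂ) * h4
  have H5 : s (1 / ((5 : ℤ) : ℚ)) = 0 := by
    have h1 := y_t1 hs (j := 4) (k := 17) (by norm_num)
    have h2 := n 4 17 (by norm_num)
    rw [show (4 + 1 : ℤ) = 5 by norm_num] at h1
    linear_combination (-1 : ℂ) * h1 - h2 + 2 * H4
  have H9 : s (1 / ((9 : ℤ) : ℚ)) = 0 := by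
    have h1 := y_t1 hs (j := 2) (k := 12) (by norm_num)
    have h2 := n 9 12 (by norm_num)
    rw [show (2 + 1 : ℤ) = 3 by norm_num] at h1
    linear_combination h1 + h2 - H2 + H3
  have H6 : s (1 / ((6 : ℤ) : ℚ)) = 0 := by
    have h1 := y_t2 hs (j := 3) (k := 6) (by norm_num)
    rw [show (3 + 1 : ℤ) = 4 by norm_num] at h1
    linear_combination (-1 : ℂ) * h1 + H3 - H4
  have H7 : s (1 / ((7 : ℤ) : ℚ)) = 0 := by
    have h1 := cl3 hs (a := 1) (b := 1) (c := 6) (d := 7) (by norm_num) (by norm_num)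
    have h2 : s (1 / ((6 : ℤ) : ℚ)) - s (1 / ((7 : ℤ) : ℚ)) = 0 := by exact_mod_cast h1
    linear_combination (-1 : ℂ) * h2 + H6
  have H8 : s (1 / ((8 : ℤ) : ℚ)) = 0 := by
    have h1 := y_t1 hs (j := 8) (k := 9) (by norm_num)
    rw [show (8 + 1 : ℤ) = 9 by norm_num] at h1
    linear_combination h1 + 2 * H9
  intro j h0 h21
  interval_cases j
  · exact H0
  · exact H1
  · exact H2
  · exact H3
  · exact H4
  · exact H5
  · exact H6
  · exact H7
  · exact H8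
  · exact H9
  · exact H10
  · rw [n 10 11 (by norm_num), H10, neg_zero]
  · rw [n 9 12 (by norm_num), H9, neg_zero]
  · rw [n 8 13 (by norm_num), H8, neg_zero]
  · rw [n 7 14 (by norm_num), H7, neg_zero]
  · rw [n 6 15 (by norm_num), H6, neg_zero]
  · rw [n 5 16 (by norm_num), H5, neg_zero]
  · rw [n 4 17 (by norm_num), H4, neg_zero]
  · rw [n 3 18 (by norm_num), H3, neg_zero]
  · rw [n 2 19 (by norm_num), H2, neg_zero]
  · rw [n 1 20 (by norm_num), H1, neg_zero]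

end

lemma classes21 : ∀ c d : ZMod 21, (∃ a b : ZMod 21, a * d - b * c = 1) →
    (∃ j : ZMod 21, d = j * c) ∨ (∃ j : ZMod 21, c = j * d) ∨ c * d = 0 := by
  decide +kernel

/-- the symbols of level `21` -/
theorem symb21 (s : ℚ → ℂ) (hs : SymbC 21 s) (h3 : s (1 / 3) = 0) (r : ℚ) : s r = 0 := by
  have hy := y_zero hs h3
  have hv : ∀ j : ZMod 21, ((j.val : ℤ) : ZMod 21) = j := fun j => by
    push_cast
    exact ZMod.natCast_zmod_val j
  refine hs.eq_zero (fun a b c d h => ?_) r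
  have h1 : ((a : ZMod 21)) * d - b * c = 1 := by exact_mod_cast congrArg (Int.cast (R := ZMod 21)) h
  rcases classes21 c d ⟨a, b, h1⟩ with ⟨j, hj⟩ | ⟨j, hj⟩ | hj
  · rw [cl1 hs h (j.val : ℤ) ?_]
    · exact hy _ (by positivity) (by exact_mod_cast ZMod.val_lt j)
    · refine (ZMod.intCast_zmod_eq_zero_iff_dvd _ 21).1 ?_
      rw [Int.cast_sub, Int.cast_mul, hv, hj, sub_self]
  · rw [cl2 hs h (j.val : ℤ) ?_]
    · exact hy _ (by positivity) (by exact_mod_cast ZMod.val_lt j)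
    · refine (ZMod.intCast_zmod_eq_zero_iff_dvd _ 21).1 ?_
      rw [Int.cast_sub, Int.cast_mul, hv, hj, sub_self]
  · refine cl3 hs h ((ZMod.intCast_zmod_eq_zero_iff_dvd _ 21).1 ?_)
    rw [Int.cast_mul, hj]

/-- `dim S_2(Γ_0(21)) ≤ 1` -/
theorem dim21 (f g : CuspForm (Gamma0 21 : Subgroup (GL (Fin 2) ℝ)) 2) {z1 : ℍ} (hf : f z1 ≠ 0) :
    ∃ c : ℂ, ∀ z : ℍ, g z = c * f z :=
  dim_gen (by norm_num) (1 / 3) symb21 f g hf

end Pool.Agent.N402.Dim
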