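import Pool.Agent.N402.Dim.MaxP

/-!
# The dimension of the space of forms of weight two from the odd symbols
-/

set_option autoImplicit false
set_option linter.unusedSectionVars false

open UpperHalfPlane MatrixGroups CongruenceSubgroup Filter Topology MeasureTheory Set
open scoped ModularForm Pointwise Modular

namespace Pool.Agent.N402.Dim

open Pool.Agent.W97.TW
open Pool.Agent.W97.MT (qq qq_ne norm_qq norm_qq_lt z_ne H_open QV iI iI_pos iI_gt iI_eventually
  tendsto_qq tpi_ne hasDerivAt_qq const_of_deriv line_im line_re tendsto_im qq_conj)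
open Pool.Agent.N974.MF (Hor line_hor hor_neBot hor_gt hor_pos ne_of_im mob_hor mob_inf_hor
  mob_hor_inf im_inv iI_neBot den_ne)
open Pool.Agent.N974.Gen

/-- odd complex symbols of level `N` -/
structure SymbC (N : ℕ) (s : ℚ → ℂ) : Prop where
  per : ∀ x, s (x + 1) = s x
  neg : ∀ x, s (-x) = -s x
  aff : ∀ {A B C D : ℤ}, A * D - B * ((N : ℤ) * C) = 1 → ∀ r : ℚ, (N : ℚ) * C * r + D ≠ 0 →
    s ((A * r + B) / ((N : ℚ) * C * r + D)) = s r + s ((B : ℚ) / D)
  aff_inf : ∀ {A B C D : ℤ}, A * D - B * ((N : ℤ) * C) = 1 → C ≠ 0 →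
    s ((A : ℚ) / ((N : ℚ) * C)) = s ((B : ℚ) / D)

variable {N : ℕ} [NeZero N] (h : CuspForm (Gamma0 N : Subgroup (GL (Fin 2) ℝ)) 2)

/-- the odd part of the symbol -/
noncomputable def DD (r : ℚ) : ℂ := II h r - II h (-r)

theorem symbC_DD (hN : 1 < N) : SymbC N (DD h) where
  per x := by
    unfold DD
    have h1 := II_add_one h x
    have h2 := II_add_one h (-(x + 1))
    rw [show -(x + 1) + 1 = -x by ring] at h2
    rw [h1, ← h2]
  neg x := by
    unfold DD
    rw [neg_neg]
    ring
  aff {A B C D} hdet r h0 := by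
    have h1 := II_aff h hN hdet r h0
    have h2 := II_aff h hN (a := A) (b := -B) (c := -C) (d := D) (by linarith) (-r)
      (by push_cast; convert h0 using 1; ring)
    unfold DD
    rw [h1]
    have e : -((A * r + B) / ((N : ℚ) * C * r + D)) =
        (A * (-r) + ((-B : ℤ) : ℚ)) / ((N : ℚ) * ((-C : ℤ) : ℚ) * (-r) + D) := by
      push_cast
      rw [← neg_div]
      congr 1 <;> ring
    have e2 : -((B : ℚ) / D) = ((-B : ℤ) : ℚ) / D := by
      push_cast
      rw [neg_div]
    rw [e, h2, e2]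
    ring
  aff_inf {A B C D} hdet hC := by
    have h1 := II_aff_inf h hN hdet hC
    have h2 := II_aff_inf h hN (a := A) (b := -B) (c := -C) (d := D) (by linarith)
      (neg_ne_zero.2 hC)
    unfold DD
    have e : -((A : ℚ) / ((N : ℚ) * C)) = (A : ℚ) / ((N : ℚ) * ((-C : ℤ) : ℚ)) := by
      push_cast
      rw [mul_neg, div_neg]
    have e2 : -((B : ℚ) / D) = ((-B : ℤ) : ℚ) / D := by
      push_cast
      rw [neg_div]
    rw [h1, e, h2, e2]
    ring

/-- the reflected function -/
noncomputable def FF (z : ℂ) : ℂ := starRingEnd ℂ (F h (-(starRingEnd ℂ z)))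

lemma refl_pos {z : ℂ} (hz : 0 < z.im) : 0 < (-(starRingEnd ℂ z)).im := by simpa using hz

lemma FF_diff {z : ℂ} (hz : 0 < z.im) : DifferentiableAt ℂ (FF h) z := by
  have h1 : DifferentiableAt ℂ (fun w : ℂ => F h (-w)) (starRingEnd ℂ z) := by
    have := F_diff h (refl_pos hz)
    exact DifferentiableAt.comp (g := F h) (f := fun w : ℂ => -w) (starRingEnd ℂ z) this
      differentiableAt_id.neg
  have h2 := h1.conj_conj
  simp only [Complex.conj_conj] at h2
  exact h2

lemma F_sub_re (z : ℂ) : (F h z - FF h z).re = (F h z - F h (-(starRingEnd ℂ z))).re := by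
  unfold FF
  simp

lemma F_add_im (z : ℂ) : (-(Complex.I * (F h z + FF h z))).re =
    (F h z - F h (-(starRingEnd ℂ z))).im := by
  unfold FF
  simp
  ring

lemma refl_mob (a b : ℤ) (c d : ℂ) (hc : starRingEnd ℂ c = c) (hd : starRingEnd ℂ d = d) (z : ℂ) :
    -(starRingEnd ℂ ((a * z + b) / (c * z + d))) =
      (a * (-(starRingEnd ℂ z)) + ((-b : ℤ) : ℂ)) / (-c * (-(starRingEnd ℂ z)) + d) := by
  rw [map_div₀, map_add, map_add, map_mul, map_mul, hc, hd, ← neg_div]
  simp only [map_intCast]
  push_cast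
  congr 1 <;> ring

variable {h} in
theorem diff_inv (hN : 1 < N) (he : ∀ r : ℚ, II h r = II h (-r)) {a b c d : ℤ}
    (hd : a * d - b * ((N : ℤ) * c) = 1) {z : ℂ} (hz : 0 < z.im) :
    F h ((a * z + b) / ((N : ℂ) * c * z + d)) -
      F h (-(starRingEnd ℂ ((a * z + b) / ((N : ℂ) * c * z + d)))) =
    F h z - F h (-(starRingEnd ℂ z)) := by
  obtain ⟨p, hp⟩ := F_gamma h hd
  have hd' : a * d - (-b) * ((N : ℤ) * (-c)) = 1 := by linarith
  obtain ⟨p', hp'⟩ := F_gamma h hd'
  have hdq : (d : ℚ) ≠ 0 := by exact_mod_cast d_ne hN hd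
  have h1 := II_gamma h hd hp 0 (by simpa using hdq)
  have h2 := II_gamma h hd' hp' 0 (by simpa using hdq)
  rw [mul_zero, mul_zero, zero_add, zero_add] at h1 h2
  have h3 := he ((b : ℚ) / d)
  have e2 : -((b : ℚ) / d) = ((-b : ℤ) : ℚ) / d := by
    push_cast
    rw [neg_div]
  rw [e2, h1, h2] at h3
  have hpp : p = p' := by linear_combination h3
  rw [hp z hz, refl_mob a b ((N : ℂ) * c) d (by simp) (by simp) z]
  have h4 := hp' _ (refl_pos hz)
  have e : (N : ℂ) * ((-c : ℤ) : ℂ) = -((N : ℂ) * c) := by push_cast; ring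
  rw [e] at h4
  rw [h4, hpp]
  ring

variable {h} in
theorem diff_cusp (he : ∀ r : ℚ, II h r = II h (-r)) {a b c d : ℤ} (hd : a * d - b * c = 1) :
    Tendsto (fun z : ℂ => F h ((a * z + b) / (c * z + d)) -
      F h (-(starRingEnd ℂ ((a * z + b) / (c * z + d))))) iI (𝓝 0) := by
  have hpos : 0 < (a : ℝ) * d - b * c := by
    have : (a : ℝ) * d - b * c = 1 := by exact_mod_cast hd
    rw [this]; norm_num
  have hrefl : Tendsto (fun z : ℂ => -(starRingEnd ℂ z)) iI iI := by
    unfold iI
    rw [tendsto_comap_iff]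
    refine tendsto_comap.congr fun z => ?_
    simp
  by_cases hc : c = 0
  · subst hc
    have had : a * d = 1 := by linarith
    have key : Tendsto (fun z : ℂ => (a * z + b) / (((0 : ℤ) : ℂ) * z + d)) iI iI := by
      unfold iI
      rw [tendsto_comap_iff]
      refine tendsto_comap.congr fun z => ?_
      simp only [Function.comp_apply]
      rcases Int.eq_one_or_neg_one_of_mul_eq_one had with rfl | rfl
      · have : d = 1 := by linarith
        subst this
        simp
      · have : d = -1 := by linarith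
        subst this
        simp
        rw [show (-z + (b : ℂ)) / -1 = z - b by ring]
        simp
    have h1 := (F_QV h).tendsto.comp key
    have h2 := (F_QV h).tendsto.comp (hrefl.comp key)
    have h3 := h1.sub h2
    rw [sub_zero] at h3
    exact h3
  · have hcR : (c : ℝ) ≠ 0 := by exact_mod_cast hc
    have k1 := mob_inf_hor (A := a) (B := b) (C := c) (D := d) hpos hcR
    have k2 := mob_inf_hor (A := a) (B := ((-b : ℤ) : ℝ)) (C := ((-c : ℤ) : ℝ)) (D := d)
      (by push_cast; linarith) (by push_cast; exact neg_ne_zero.2 hcR)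
    have e1 : (((a : ℝ) / c : ℝ) : ℂ) = (((a : ℚ) / c : ℚ) : ℂ) := by push_cast; rfl
    have e2 : (((a : ℝ) / ((-c : ℤ) : ℝ) : ℝ) : ℂ) = ((-((a : ℚ) / c) : ℚ) : ℂ) := by
      push_cast
      rw [div_neg]
    rw [e1] at k1
    rw [e2] at k2
    have h1 := (F_hor h _).comp k1
    have h2 := (F_hor h _).comp (k2.comp hrefl)
    have h3 := h1.sub h2
    rw [← he, sub_self] at h3
    refine h3.congr fun z => ?_
    simp only [Function.comp_apply]
    rw [refl_mob a b c d (by simp) (by simp) z]
    push_cast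
    rfl

/-- the form vanishes when its odd symbol vanishes -/
theorem zero_of_even (hN : 1 < N) (he : ∀ r : ℚ, II h r = II h (-r)) :
    ∀ z : ℂ, 0 < z.im → ff h z = 0 := by
  have H1 : Har N (fun z => F h z - FF h z) :=
    { diff := fun z hz => (F_diff h hz).sub (FF_diff h hz)
      inv := fun a b c d hd z hz => by
        rw [F_sub_re, F_sub_re, diff_inv hN he hd hz]
      cusp := fun a b c d hd => by
        have h1 := (Complex.continuous_re.tendsto 0).comp (diff_cusp he hd)
        rw [Complex.zero_re] at h1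
        refine h1.congr fun z => ?_
        rw [F_sub_re]
        rfl }
  have H2 : Har N (fun z => -(Complex.I * (F h z + FF h z))) :=
    { diff := fun z hz => (((F_diff h hz).add (FF_diff h hz)).const_mul _).neg
      inv := fun a b c d hd z hz => by
        rw [F_add_im, F_add_im, diff_inv hN he hd hz]
      cusp := fun a b c d hd => by
        have h1 := (Complex.continuous_im.tendsto 0).comp (diff_cusp he hd)
        rw [Complex.zero_im] at h1
        refine h1.congr fun z => ?_
        rw [F_add_im]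
        rfl }
  intro z hz
  have h1 := deriv_of_re (fun z hz => H1.diff z hz) H1.zero hz
  have h2 := deriv_of_re (fun z hz => H2.diff z hz) H2.zero hz
  have hF := F_deriv h hz
  have hG := (FF_diff h hz).hasDerivAt
  have h3 := (hF.sub hG).deriv
  have h4 := ((hF.add hG).const_mul Complex.I).neg.deriv
  have h3' : 2 * Real.pi * Complex.I * ff h z - deriv (FF h) z = 0 := by
    rw [← h3]; exact h1
  have h4' : -(Complex.I * (2 * Real.pi * Complex.I * ff h z + deriv (FF h) z)) = 0 := by
    rw [← h4]; exact h2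
  have h5 : 2 * Real.pi * Complex.I * ff h z + deriv (FF h) z = 0 := by
    have := neg_eq_zero.1 h4'
    exact (mul_eq_zero.1 this).resolve_left Complex.I_ne_zero
  have h6 : (2 * Real.pi * Complex.I) * ff h z = 0 := by linear_combination (h3' + h5) / 2
  exact (mul_eq_zero.1 h6).resolve_left tpi_ne

/-! ### linearity -/

lemma ff_lin (g f : CuspForm (Gamma0 N : Subgroup (GL (Fin 2) ℝ)) 2) (c : ℂ) (z : ℂ) :
    ff (g - c • f) z = ff g z - c * ff f z := rfl

lemma II_lin (g f : CuspForm (Gamma0 N : Subgroup (GL (Fin 2) ℝ)) 2) (c : ℂ) (r : ℚ) :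
    II (g - c • f) r = II g r - c * II f r := by
  unfold II
  have e : ∀ t : ℝ, ff (g - c • f) ((r : ℂ) + t * Complex.I) =
      ff g ((r : ℂ) + t * Complex.I) - c * ff f ((r : ℂ) + t * Complex.I) := fun t =>
    ff_lin g f c _
  simp only [e]
  rw [integral_sub (int_rat g r) ((int_rat f r).const_mul c), integral_const_mul]
  ring

lemma DD_lin (g f : CuspForm (Gamma0 N : Subgroup (GL (Fin 2) ℝ)) 2) (c : ℂ) (r : ℚ) :
    DD (g - c • f) r = DD g r - c * DD f r := by
  unfold DD
  rw [II_lin, II_lin]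
  ring

/-- the dimension is at most one when the space of the odd symbols is of dimension one -/
theorem dim_gen (hN : 1 < N) (r0 : ℚ) (hS : ∀ s : ℚ → ℂ, SymbC N s → s r0 = 0 → ∀ r, s r = 0)
    (f g : CuspForm (Gamma0 N : Subgroup (GL (Fin 2) ℝ)) 2) {z1 : ℍ} (hf : f z1 ≠ 0) :
    ∃ c : ℂ, ∀ z : ℍ, g z = c * f z := by
  have hz : ∀ k : CuspForm (Gamma0 N : Subgroup (GL (Fin 2) ℝ)) 2, DD k r0 = 0 →
      ∀ z : ℍ, k z = 0 := by
    intro k hk z
    have h1 := hS _ (symbC_DD k hN) hk
    have h2 := zero_of_even k hN (fun r => sub_eq_zero.1 (h1 r)) z z.im_pos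
    rwa [ff_H] at h2
  have hf0 : DD f r0 ≠ 0 := fun h0 => hf (hz f h0 z1)
  refine ⟨DD g r0 / DD f r0, fun z => ?_⟩
  have h1 := hz (g - (DD g r0 / DD f r0) • f) (by
    rw [DD_lin]
    field_simp
    ring) z
  have h2 : (g - (DD g r0 / DD f r0) • f) z = g z - DD g r0 / DD f r0 * f z := rfl
  rw [h2] at h1
  linear_combination h1

end Pool.Agent.N402.Dim
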