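import Pool.Agent.N402.Dim.Gen

/-!
# Manin symbols of an odd symbol
-/

set_option autoImplicit false

open UpperHalfPlane MatrixGroups CongruenceSubgroup Filter Topology

namespace Pool.Agent.N402.Dim

variable {N : ℕ} {s : ℚ → ℂ} (hs : SymbC N s)
include hs

lemma SymbC.zero : s 0 = 0 := by
  have h := hs.neg 0
  rw [neg_zero] at h
  linear_combination h / 2

lemma SymbC.div_zero (x : ℚ) : s (x / 0) = 0 := by
  rw [_root_.div_zero, hs.zero]

lemma SymbC.int (n : ℤ) : s n = 0 := by
  induction n using Int.induction_on with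
  | zero => simpa using hs.zero
  | succ n ih =>
    push_cast
    rw [hs.per]
    exact_mod_cast ih
  | pred n ih =>
    have h := hs.per ((-(n : ℚ)) - 1)
    rw [sub_add_cancel] at h
    push_cast
    rw [← h]
    exact_mod_cast ih

/-- the action of the group, also at infinity -/
theorem SymbC.act (hN : 1 < N) {A B C D : ℤ} (h : A * D - B * ((N : ℤ) * C) = 1) {a c : ℤ}
    (hac : IsCoprime a c) :
    s (((A * a + B * c : ℤ) : ℚ) / (((N : ℤ) * C * a + D * c : ℤ) : ℚ)) =
      s ((a : ℚ) / c) + s ((B : ℚ) / D) := by
  have : NeZero N := ⟨by omega⟩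
  have hD : D ≠ 0 := N974.Gen.d_ne hN h
  have hA : A ≠ 0 := N974.Gen.d_ne (a := D) (b := B) (c := C) hN (by linarith)
  have hNQ : (N : ℚ) ≠ 0 := by
    have : N ≠ 0 := by omega
    exact_mod_cast this
  by_cases hc : c = 0
  · subst hc
    have hau : IsUnit a := by
      have := isCoprime_zero_right.1 hac
      exact this
    have ha : a = 1 ∨ a = -1 := Int.isUnit_iff.1 hau
    simp only [mul_zero, add_zero, Int.cast_zero, _root_.div_zero, hs.zero, zero_add]
    by_cases hC : C = 0
    · subst hC
      have hAD : A * D = 1 := by linarith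
      simp only [mul_zero, zero_mul, Int.cast_zero, _root_.div_zero, hs.zero]
      have hD1 : D = 1 ∨ D = -1 := Int.isUnit_iff.1 (IsUnit.of_mul_eq_one A (by linarith))
      rcases hD1 with rfl | rfl
      · rw [Int.cast_one, div_one, hs.int]
      · have e : (B : ℚ) / ((-1 : ℤ) : ℚ) = ((-B : ℤ) : ℚ) := by push_cast; ring
        rw [e, hs.int]
    · have h1 := hs.aff_inf h hC
      have hCQ : (C : ℚ) ≠ 0 := by exact_mod_cast hC
      have e : ((A * a : ℤ) : ℚ) / (((N : ℤ) * C * a : ℤ) : ℚ) = (A : ℚ) / ((N : ℚ) * C) := by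
        rcases ha with rfl | rfl
        · push_cast; ring_nf
        · push_cast
          field_simp
      rw [e, h1]
  · have hcQ : (c : ℚ) ≠ 0 := by exact_mod_cast hc
    by_cases h0 : (N : ℤ) * C * a + D * c = 0
    · -- the pole
      rw [h0, Int.cast_zero, hs.div_zero]
      have hC : C ≠ 0 := by
        rintro rfl
        rw [mul_zero, zero_mul, zero_add] at h0
        rcases mul_eq_zero.1 h0 with h1 | h1
        · exact hD h1
        · exact hc h1
      have hCQ : (C : ℚ) ≠ 0 := by exact_mod_cast hC
      have hAQ : (A : ℚ) ≠ 0 := by exact_mod_cast hA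
      have hDQ : (D : ℚ) ≠ 0 := by exact_mod_cast hD
      have h1 := hs.aff_inf (A := D) (B := -B) (C := -C) (D := A) (by linarith)
        (neg_ne_zero.2 hC)
      have h2 := hs.aff (A := A) (B := B) (C := C) (D := D) h (-(B : ℚ) / A) (by
        have hq : (A : ℚ) * D - B * (N * C) = 1 := by exact_mod_cast h
        have : (N : ℚ) * C * (-(B : ℚ) / A) + D = 1 / A := by
          field_simp
          linear_combination hq
        rw [this]
        exact one_div_ne_zero hAQ)
      have e2 : (A : ℚ) * (-(B : ℚ) / A) + B = 0 := by field_simp; ring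
      rw [e2, zero_div, hs.zero] at h2
      have e1 : (a : ℚ) / c = (D : ℚ) / ((N : ℚ) * ((-C : ℤ) : ℚ)) := by
        have h0Q : (N : ℚ) * C * a + D * c = 0 := by exact_mod_cast h0
        push_cast
        rw [div_eq_div_iff hcQ (by
          rw [mul_neg]
          exact neg_ne_zero.2 (mul_ne_zero hNQ hCQ))]
        linear_combination -h0Q
      rw [e1, h1]
      push_cast
      linear_combination h2
    · have h1 := hs.aff h ((a : ℚ) / c) (by
        have h0Q : (N : ℚ) * C * a + D * c ≠ 0 := by exact_mod_cast h0
        intro h2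
        apply h0Q
        field_simp at h2
        linear_combination h2)
      rw [← h1]
      congr 1
      have h0Q : (N : ℚ) * C * a + D * c ≠ 0 := by exact_mod_cast h0
      have h0' : (N : ℚ) * C * (a / c) + D ≠ 0 := by
        intro h2
        apply h0Q
        field_simp at h2
        linear_combination h2
      push_cast
      rw [div_eq_div_iff h0Q h0']
      field_simp

/-- the symbol of a matrix depends on the bottom row only -/
theorem SymbC.xi (hN : 1 < N) {a b c d a' b' c' d' : ℤ} (h : a * d - b * c = 1)
    (h' : a' * d' - b' * c' = 1) (hd : (N : ℤ) ∣ c' * d - d' * c) :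
    s ((a : ℚ) / c) - s ((b : ℚ) / d) = s ((a' : ℚ) / c') - s ((b' : ℚ) / d') := by
  obtain ⟨C, hC⟩ := hd
  have hdet : (a' * d - b' * c) * (d' * a - c' * b) - (b' * a - a' * b) * ((N : ℤ) * C) = 1 := by
    rw [← hC]
    linear_combination (a * d - b * c) * h' + h
  have h1 := hs.act hN hdet (a := a) (c := c) ⟨d, -b, by linarith⟩
  have h2 := hs.act hN hdet (a := b) (c := d) ⟨-c, a, by linarith⟩
  have e1 : (a' * d - b' * c) * a + (b' * a - a' * b) * c = a' := by
    linear_combination a' * h
  have e2 : (N : ℤ) * C * a + (d' * a - c' * b) * c = c' := by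
    rw [← hC]
    linear_combination c' * h
  have e3 : (a' * d - b' * c) * b + (b' * a - a' * b) * d = b' := by
    linear_combination b' * h
  have e4 : (N : ℤ) * C * b + (d' * a - c' * b) * d = d' := by
    rw [← hC]
    linear_combination d' * h
  rw [e1, e2] at h1
  rw [e3, e4] at h2
  rw [h1, h2]
  ring

/-- if all the symbols of matrices vanish then the symbol vanishes -/
theorem SymbC.eq_zero (hx : ∀ a b c d : ℤ, a * d - b * c = 1 →
    s ((a : ℚ) / c) - s ((b : ℚ) / d) = 0) (r : ℚ) : s r = 0 := by
  have key : ∀ n : ℕ, ∀ a c : ℤ, IsCoprime a c → 0 ≤ c → c.natAbs = n → s ((a : ℚ) / c) = 0 := by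
    intro n
    induction n using Nat.strong_induction_on with
    | _ n ih =>
      intro a c hac hc0 hn
      by_cases hc : c = 0
      · subst hc
        rw [Int.cast_zero, hs.div_zero]
      · have hcp : 0 < c := lt_of_le_of_ne hc0 (Ne.symm hc)
        obtain ⟨u, v, huv⟩ := hac
        have hd0 : 0 ≤ u % c := Int.emod_nonneg _ hc
        have hdc : u % c < c := Int.emod_lt_of_pos _ hcp
        have hu : u = c * (u / c) + u % c := (Int.mul_ediv_add_emod u c).symm
        have hdet : a * (u % c) - (-(v + (u / c) * a)) * c = 1 := by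
          linear_combination huv - a * hu
        have h1 := hx a _ c _ hdet
        have h2 := ih (u % c).natAbs (by omega) (-(v + (u / c) * a)) (u % c)
          ⟨-c, a, by linarith⟩ hd0 rfl
        rw [h2, sub_zero] at h1
        exact h1
  have h1 := key _ r.num r.den (Int.isCoprime_iff_gcd_eq_one.2 (by
    have := r.reduced
    rw [Int.gcd, Int.natAbs_natCast]
    exact this)) (by positivity) rfl
  rw [← Rat.num_div_den r]
  exact_mod_cast h1

end Pool.Agent.N402.Dim
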