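import Pool.Agent.N974.Gen.Act

/-!
# The maximum principle for the real part of the integral of a form
-/

set_option autoImplicit false
set_option linter.unusedSectionVars false

open UpperHalfPlane MatrixGroups CongruenceSubgroup Filter Topology MeasureTheory Set
open scoped ModularForm Pointwise Modular

namespace Pool.Agent.N402.Dim

open Pool.Agent.W97.TW
open Pool.Agent.W97.MT (qq qq_ne norm_qq norm_qq_lt z_ne H_open QV iI iI_pos iI_gt iI_eventually
  tendsto_qq tpi_ne hasDerivAt_qq const_of_deriv line_im line_re tendsto_im qq_conj)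
open Pool.Agent.N974.MF (Hor line_hor hor_neBot hor_gt hor_pos ne_of_im mob_hor mob_inf_hor
  mob_hor_inf im_inv iI_neBot den_ne)
open Pool.Agent.N974.Gen

lemma cont_smul (g : SL(2, ℤ)) : Continuous (fun w : ℍ => g • w) :=
  continuous_const_smul (Matrix.SpecialLinearGroup.mapGL ℝ g)

/-- an invariant function tending to zero at the cusps with a positive value has a maximum -/
theorem exists_max {u : ℍ → ℝ} (hc : Continuous u) (Γ : Subgroup SL(2, ℤ)) [Γ.FiniteIndex]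
    (hinv : ∀ γ ∈ Γ, ∀ z, u (γ • z) = u z)
    (h0 : ∀ g : SL(2, ℤ), Tendsto (fun z => u (g • z)) atImInfty (𝓝 0)) {z1 : ℍ}
    (h1 : 0 < u z1) : ∃ z0, u z1 ≤ u z0 ∧ ∀ z, u z ≤ u z0 := by
  classical
  have hfin : Finite (SL(2, ℤ) ⧸ Γ) := Subgroup.finite_quotient_of_finiteIndex
  have hT : ∀ q : SL(2, ℤ) ⧸ Γ, ∃ T : ℝ, ∀ w : ℍ, T ≤ w.im → u ((q.out)⁻¹ • w) < u z1 := by
    intro q
    have h2 := (h0 (q.out)⁻¹).eventually (eventually_lt_nhds h1)
    rw [atImInfty, eventually_comap, eventually_atTop] at h2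
    obtain ⟨T, hT⟩ := h2
    exact ⟨T, fun w hw => hT w.im hw w rfl⟩
  choose T hT using hT
  obtain ⟨q0, hq0⟩ := Finite.exists_max T
  have hrep : ∀ z : ℍ, ∃ (q : SL(2, ℤ) ⧸ Γ) (w : ℍ), w ∈ 𝒟 ∧ u z = u ((q.out)⁻¹ • w) := by
    intro z
    obtain ⟨g, hg⟩ := ModularGroup.exists_smul_mem_fd z
    refine ⟨(g : SL(2, ℤ) ⧸ Γ), g • z, hg, ?_⟩
    obtain ⟨γ, hγ⟩ := QuotientGroup.mk_out_eq_mul Γ g
    rw [hγ, mul_inv_rev, mul_smul, inv_smul_smul]
    exact (hinv _ (Γ.inv_mem γ.2) z).symm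
  set K := ModularGroup.truncatedFundamentalDomain (T q0) with hK
  have hKc : IsCompact K := ModularGroup.isCompact_truncatedFundamentalDomain _
  have hmem : ∀ (q : SL(2, ℤ) ⧸ Γ) (w : ℍ), w ∈ 𝒟 → u z1 ≤ u ((q.out)⁻¹ • w) → w ∈ K := by
    intro q w hw hu
    refine ⟨hw, ?_⟩
    by_contra hcon
    push Not at hcon
    exact absurd (hT q w ((hq0 q).trans hcon.le)) (not_lt.2 hu)
  obtain ⟨q1, w1, hw1, e1⟩ := hrep z1
  have hKne : K.Nonempty := ⟨w1, hmem q1 w1 hw1 e1.le⟩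
  have hmax : ∀ q : SL(2, ℤ) ⧸ Γ, ∃ w ∈ K, ∀ w' ∈ K, u ((q.out)⁻¹ • w') ≤ u ((q.out)⁻¹ • w) := by
    intro q
    have hcont : ContinuousOn (fun w : ℍ => u ((q.out)⁻¹ • w)) K :=
      (hc.comp (cont_smul ((q.out)⁻¹ : SL(2, ℤ)))).continuousOn
    obtain ⟨w, hw, hw'⟩ := hKc.exists_isMaxOn hKne hcont
    exact ⟨w, hw, fun w' h' => hw' h'⟩
  choose W hWK hW using hmax
  have : Nonempty (SL(2, ℤ) ⧸ Γ) := ⟨q1⟩
  obtain ⟨q2, hq2⟩ := Finite.exists_max (fun q => u ((q.out)⁻¹ • W q))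
  have key : ∀ (q : SL(2, ℤ) ⧸ Γ) (w : ℍ), w ∈ K →
      u ((q.out)⁻¹ • w) ≤ u ((q2.out)⁻¹ • W q2) := fun q w hw => (hW q w hw).trans (hq2 q)
  have hz1 : u z1 ≤ u ((q2.out)⁻¹ • W q2) := by
    rw [e1]
    exact key q1 w1 (hmem q1 w1 hw1 e1.le)
  refine ⟨(q2.out)⁻¹ • W q2, hz1, fun z => ?_⟩
  by_cases hlt : u z1 ≤ u z
  · obtain ⟨q, w, hw, e⟩ := hrep z
    rw [e] at hlt ⊢
    exact key q w (hmem q w hw hlt)
  · exact (not_le.1 hlt).le.trans hz1

variable {N : ℕ} [NeZero N]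

/-- the assumptions on the real part -/
structure Har (N : ℕ) (G : ℂ → ℂ) : Prop where
  diff : ∀ z : ℂ, 0 < z.im → DifferentiableAt ℂ G z
  inv : ∀ a b c d : ℤ, a * d - b * ((N : ℤ) * c) = 1 → ∀ z : ℂ, 0 < z.im →
    (G ((a * z + b) / ((N : ℂ) * c * z + d))).re = (G z).re
  cusp : ∀ a b c d : ℤ, a * d - b * c = 1 →
    Tendsto (fun z : ℂ => (G ((a * z + b) / (c * z + d))).re) iI (𝓝 0)

lemma tendsto_coe_iI : Tendsto (fun z : ℍ => (z : ℂ)) atImInfty iI := by
  unfold iI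
  rw [tendsto_comap_iff]
  exact tendsto_comap

theorem Har.neg {G : ℂ → ℂ} (h : Har N G) : Har N (fun z => -G z) where
  diff z hz := (h.diff z hz).neg
  inv a b c d hd z hz := by
    rw [Complex.neg_re, Complex.neg_re, h.inv a b c d hd z hz]
  cusp a b c d hd := by
    have := (h.cusp a b c d hd).neg
    rw [neg_zero] at this
    simpa using this

theorem Har.nonpos {G : ℂ → ℂ} (h : Har N G) : ∀ z : ℂ, 0 < z.im → (G z).re ≤ 0 := by
  by_contra hcon
  push Not at hcon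
  obtain ⟨z1, hz1, hpos⟩ := hcon
  have hcont : ContinuousOn G {z : ℂ | 0 < z.im} := fun z hz =>
    (h.diff z hz).continuousAt.continuousWithinAt
  have hcu : Continuous (fun z : ℍ => (G z).re) :=
    Complex.continuous_re.comp (hcont.comp_continuous UpperHalfPlane.continuous_coe
      fun z => z.im_pos)
  obtain ⟨z0, h10, hmax⟩ := exists_max (u := fun z : ℍ => (G z).re) hcu (Gamma0 N) (by
      intro γ hγ z
      obtain ⟨a, b, c, d, hd, rfl⟩ := exists_mkSL γ
      rw [mkSL_mem] at hγ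
      obtain ⟨c, rfl⟩ := hγ
      rw [mkSL_smul]
      push_cast
      exact h.inv a b c d hd z z.im_pos) (by
      intro γ
      obtain ⟨a, b, c, d, hd, rfl⟩ := exists_mkSL γ
      have h2 := (h.cusp a b c d hd).comp tendsto_coe_iI
      refine h2.congr fun z => ?_
      simp only [Function.comp_apply]
      rw [mkSL_smul]) (z1 := ⟨z1, hz1⟩) hpos
  have hpre : IsPreconnected {z : ℂ | 0 < z.im} := (convex_halfSpace_im_gt 0).isPreconnected
  have hd : DifferentiableOn ℂ (fun z => Complex.exp (G z)) {z : ℂ | 0 < z.im} := fun z hz =>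
    (h.diff z hz).cexp.differentiableWithinAt
  have hm : IsMaxOn (norm ∘ fun z => Complex.exp (G z)) {z : ℂ | 0 < z.im} (z0 : ℂ) := by
    intro z hz
    simp only [Function.comp_apply, Complex.norm_exp, Set.mem_ofPred_eq]
    exact Real.exp_le_exp.2 (hmax ⟨z, hz⟩)
  have h3 := Complex.norm_eqOn_of_isPreconnected_of_isMaxOn hpre H_open hd z0.im_pos hm
  have h4 : ∀ z : ℂ, 0 < z.im → (G z).re = (G z0).re := by
    intro z hz
    have := h3 hz
    simp only [Function.comp_apply, Complex.norm_exp, Function.const_apply] at this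
    exact Real.exp_injective this
  have h5 := h.cusp 1 0 0 1 (by norm_num)
  have h6 : Tendsto (fun z : ℂ => (G ((((1 : ℤ) : ℂ) * z + ((0 : ℤ) : ℂ)) /
      (((0 : ℤ) : ℂ) * z + ((1 : ℤ) : ℂ)))).re) iI (𝓝 (G z0).re) := by
    refine tendsto_const_nhds.congr' ?_
    filter_upwards [iI_pos] with z hz
    have e : (((1 : ℤ) : ℂ) * z + ((0 : ℤ) : ℂ)) / (((0 : ℤ) : ℂ) * z + ((1 : ℤ) : ℂ)) = z := by
      push_cast
      ring
    rw [e, h4 z hz]
  have h7 := tendsto_nhds_unique h5 h6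
  have h8 : (0 : ℝ) < (G z0).re := lt_of_lt_of_le hpos h10
  linarith

theorem Har.zero {G : ℂ → ℂ} (h : Har N G) : ∀ z : ℂ, 0 < z.im → (G z).re = 0 := by
  intro z hz
  have h1 := h.nonpos z hz
  have h2 := h.neg.nonpos z hz
  rw [Complex.neg_re] at h2
  linarith

/-- a holomorphic function with vanishing real part has derivative zero -/
theorem deriv_of_re {G : ℂ → ℂ} (hd : ∀ z : ℂ, 0 < z.im → DifferentiableAt ℂ G z)
    (h : ∀ z : ℂ, 0 < z.im → (G z).re = 0) {z : ℂ} (hz : 0 < z.im) : deriv G z = 0 := by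
  have hpre : IsPreconnected {z : ℂ | 0 < z.im} := (convex_halfSpace_im_gt 0).isPreconnected
  have hd' : DifferentiableOn ℂ (fun z => Complex.exp (G z)) {z : ℂ | 0 < z.im} := fun z hz =>
    (hd z hz).cexp.differentiableWithinAt
  have hm : IsMaxOn (norm ∘ fun z => Complex.exp (G z)) {z : ℂ | 0 < z.im} z := by
    intro w hw
    simp only [Function.comp_apply, Complex.norm_exp, Set.mem_ofPred_eq]
    rw [h w hw, h z hz]
  have h3 := Complex.eqOn_of_isPreconnected_of_isMaxOn_norm hpre H_open hd' hz hm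
  have h4 : (fun z => Complex.exp (G z)) =ᶠ[𝓝 z] fun _ => Complex.exp (G z) := by
    filter_upwards [H_open.mem_nhds hz] with w hw
    exact h3 hw
  have h5 := h4.deriv_eq
  rw [deriv_const] at h5
  have h6 := ((hd z hz).hasDerivAt.cexp).deriv
  rw [h6] at h5
  exact (mul_eq_zero.1 h5).resolve_left (Complex.exp_ne_zero _)

end Pool.Agent.N402.Dim
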